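import Pool.Agent.TH340.RC.Fin

/-!
# The exact rate of compression before a singularity of the Euler equations

Let `-λ(t)` be the least rate of strain of a `C²` periodic solution at the time `t`: the strongest
compression. Along a particle path `S' = -S² - Ω² - D²p`. So if `λ(t)` is attained at `x` in the
direction `e`, it grows at most at the rate `λ² - |ω × e|² / 4 + e · (D²p) e`, and it suffices to
know this at *one* point where it is attained. We assume the one-sided condition

`e · (D²p) e ≤ |ω × e|² / 4 + (θ - 1) λ² + μ(t)`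

at one such point and direction, for almost every time. Then `λ` is below every solution of the
Riccati inequality `R' ≥ θ R² + μ`. For `μ = c / (T - t)²` this has a striking consequence: if `T` is
a singular time (the Beale-Kato-Majda integral is infinite) and `4 θ c < 1`, then

`λ(s) ≥ (1 + √(1 - 4 θ c)) / (2 θ (T - s))` for EVERY `s < T`.

For instance `λ(s) ≥ 1 / (T - s)` if `e · (D²p) e ≤ |ω × e|² / 4`. The same holds for the strongest
stretching, with the condition `|ω × e|² / 4 - e · (D²p) e ≤ (θ + 1) λ² + μ`. The thresholds are sharp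
for non-periodic solutions which are linear in `x`.
-/

set_option autoImplicit false

open MeasureTheory Set

namespace Pool.Agent.Results.MP_b0497c_an.CompressionRate

open Pool.Agent.H708R2.EulerSign Pool.Agent.H708R2.EulerTypeI Pool.Agent.TH340.RC

/-- (1) The rates before a singularity. Let `(u, p)` be a `C²` periodic solution of the Euler
equations on `[0, T)` with infinite Beale-Kato-Majda integral, `θ > 0`, `c ≥ 0`, `4 θ c < 1` and
`0 < s < T`. If `1 - √(1 - 4 θ c) < θ` and the condition for the pressure with `θ` and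
`μ(t) = c / (T - t)²` holds at one point of strongest compression for almost every `t ∈ (s, T)`,
then the strongest compression at the time `s` is at least `(1 + √(1 - 4 θ c)) / (2 θ (T - s))`. The
same for stretching, if `1 - √(1 - 4 θ c) < 2 θ`.
(2) The thresholds are sharp: there are smooth non-periodic solutions, linear in `x`, with infinite
Beale-Kato-Majda integral, for which the condition holds at all times and the strongest compression
(stretching) is at most the threshold of (1), if `θ ≤ 1 + √(1 - 4 θ c)` (`2 θ ≤ 1 + √(1 - 4 θ c)`). -/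
theorem result :
    (∀ (T θ c s : ℝ) (u : ℝ → V → V) (p : ℝ → V → ℝ), 0 < θ → 0 ≤ c → 4 * θ * c < 1 →
      IsC2Solution T u p → s ∈ Ioo 0 T → ¬ BKMFinite T u →
      (1 - Real.sqrt (1 - 4 * θ * c) < θ →
        (∀ᵐ t, t ∈ Ioo s T → CondC θ (c / (T - t) ^ 2) (u t) (p t)) →
        ∃ x e, MostCompressed (u s) x e ∧
          rate (u s) x e ≤ -((1 + Real.sqrt (1 - 4 * θ * c)) / (2 * θ * (T - s)))) ∧
      (1 - Real.sqrt (1 - 4 * θ * c) < 2 * θ →
        (∀ᵐ t, t ∈ Ioo s T → CondS θ (c / (T - t) ^ 2) (u t) (p t)) →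
        ∃ x e, MostStretched (u s) x e ∧
          (1 + Real.sqrt (1 - 4 * θ * c)) / (2 * θ * (T - s)) ≤ rate (u s) x e)) ∧
    (∀ T θ c : ℝ, 0 < T → 0 < θ → 0 ≤ c → 4 * θ * c < 1 →
      (θ ≤ 1 + Real.sqrt (1 - 4 * θ * c) →
        ∃ (u : ℝ → V → V) (p : ℝ → V → ℝ), IsSpaceSolution T u p ∧
          (∀ t, ∃ A : Matrix (Fin 3) (Fin 3) ℝ, ∀ x, u t x = A.mulVec x) ∧
          (∀ t ∈ Ico 0 T, CondC θ (c / (T - t) ^ 2) (u t) (p t)) ∧
          (∀ t ∈ Ico 0 T, ∀ x e, e ⬝ᵥ e = 1 →
            -((1 + Real.sqrt (1 - 4 * θ * c)) / (2 * θ * (T - t))) ≤ rate (u t) x e) ∧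
          ¬ BKMFinite T u) ∧
      (2 * θ ≤ 1 + Real.sqrt (1 - 4 * θ * c) →
        ∃ (u : ℝ → V → V) (p : ℝ → V → ℝ), IsSpaceSolution T u p ∧
          (∀ t, ∃ A : Matrix (Fin 3) (Fin 3) ℝ, ∀ x, u t x = A.mulVec x) ∧
          (∀ t ∈ Ico 0 T, CondS θ (c / (T - t) ^ 2) (u t) (p t)) ∧
          (∀ t ∈ Ico 0 T, ∀ x e, e ⬝ᵥ e = 1 →
            rate (u t) x e ≤ (1 + Real.sqrt (1 - 4 * θ * c)) / (2 * θ * (T - t))) ∧
          ¬ BKMFinite T u)) :=
  ⟨fun _ _ _ _ _ _ hθ hc h4 h hs hsing =>
      ⟨fun hlt hcond => rateC hθ hc h4 h hs hcond hlt hsing,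
        fun hlt hcond => rateS hθ hc h4 h hs hcond hlt hsing⟩,
    fun _ _ _ hT hθ _ h4 => ⟨fun hle => sharpC hT hθ h4 hle, fun hle => sharpS hT hθ h4 hle⟩⟩

end Pool.Agent.Results.MP_b0497c_an.CompressionRate
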