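import Pool.Agent.TH210.EU.Lin

/-!
# A pressure condition at one point of strongest growth of the vorticity

Let `(u, p)` be a `C²` periodic solution of the Euler equations, `ξ = ω / |ω|`, `α = ξ · (∇u) ξ` the
stretching rate, `ξ̇ = (∇u) ξ - α ξ` and `D/Dt` the derivative along particle paths. Then
`D|ω|/Dt = α |ω|` and `Dα/Dt = |ξ̇|² - α² - ξ · (D²p) ξ`. So for `θ > 0` and functions `a, b` of `t`

`(D/Dt - a) |ω|^θ = |ω|^θ (θ α - a)`,

`(D/Dt - b) (D/Dt - a) |ω|^θ
    = |ω|^θ (θ (|ξ̇|² + (θ - 1) α² - ξ · (D²p) ξ) - θ (a + b) α - a' + a b)`.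

We only ask that the second quantity is not positive at *one* point at which the first one is
maximal (and positive), for almost every time. Then `|ω|^θ` is bounded by a multiple of the solution
`R` of `(d/dt - b) (d/dt - a) R = 0`, and there is no singularity at the time `T` if `R^(1/θ)` is
integrable. This is sharp for all `a, b, θ`: if `R^(1/θ)` is not integrable then there is a
non-periodic solution, linear in `x`, which satisfies the condition at all times and becomes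
singular at the time `T`.

For instance `a = θ c / (T - t)`, `b = (1 + θ c) / (T - t)`: the function `R^(1/θ)` is integrable if
and only if `c < 1`. With `m = (T - t) α` the condition is
`(T - t)² (|ξ̇|² - ξ · (D²p) ξ) ≤ (1 - θ) m² + (1 + 2 θ c) m - θ c²`, at one point of maximum of
`|ω|^θ (m - c)`.
-/

set_option autoImplicit false

open MeasureTheory Set
open scoped ENNReal

namespace Pool.Agent.Results.MP_b0497c_an.GrowthMaximum

open Pool.Agent.H708R2.EulerSign Pool.Agent.H708R2.EulerTypeI Pool.Agent.TH210.EU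

/-- Let `θ > 0` and `R(t) = exp(∫ₛᵗ a) (1 + ∫ₛᵗ exp(∫ₛʳ (b - a)) dr)`.
(1) Let `(u, p)` be a `C²` periodic solution of the Euler equations on `[0, T)` and `0 < s < T`. If
for almost every `t ∈ (s, T)` the maximum of `(D/Dt - a) |ω|^θ` is not positive, or
`(D/Dt - b) (D/Dt - a) |ω|^θ ≤ 0` at one point where it is attained, then `|ω|^θ ≤ C R` on `[s, T)`,
and the Beale-Kato-Majda integral is finite if `∫ R^(1/θ) < ∞`.
(2) If `∫ R^(1/θ) = ∞` (with `s = 0`) then some smooth non-periodic solution, linear in `x`,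
satisfies the condition for all `t ∈ [0, T)` and has an infinite Beale-Kato-Majda integral. -/
theorem result :
    (∀ (T θ s : ℝ) (a b : ℝ → ℝ) (u : ℝ → V → V) (p : ℝ → V → ℝ), 0 < θ → s ∈ Ioo 0 T →
      ContDiffOn ℝ 1 a (Ioo 0 T) → ContinuousOn b (Ioo 0 T) → IsC2Solution T u p →
      (∀ᵐ t, t ∈ Ioo s T → OnePoint θ (a t) (deriv a t) (b t) (u t) (p t)) →
      (∃ C : ℝ, ∀ t ∈ Ico s T, ∀ x, nrm (vort (u t) x) ^ θ ≤ C * cmpFun s a b t) ∧
      (∫⁻ t in Ioo s T, ENNReal.ofReal (cmpFun s a b t ^ (1 / θ)) < ∞ → BKMFinite T u)) ∧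
    (∀ (T θ : ℝ) (a b : ℝ → ℝ), 0 < T → 0 < θ → ContDiffOn ℝ (⊤ : ℕ∞) a (Iio T) →
      ContDiffOn ℝ (⊤ : ℕ∞) b (Iio T) →
      ∫⁻ t in Ioo 0 T, ENNReal.ofReal (cmpFun 0 a b t ^ (1 / θ)) = ∞ →
      ∃ (u : ℝ → V → V) (p : ℝ → V → ℝ), IsSpaceSolution T u p ∧
        (∀ t, ∃ A : Matrix (Fin 3) (Fin 3) ℝ, ∀ x, u t x = A.mulVec x) ∧
        (∀ t ∈ Ico 0 T, OnePoint θ (a t) (deriv a t) (b t) (u t) (p t)) ∧
        ¬ BKMFinite T u) :=
  ⟨fun _ _ _ _ _ _ _ hθ hs ha hb h hcond => criterion hθ h hs ha hb hcond,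
    fun _ _ _ _ hT hθ ha hb hint => sharp hT hθ ha hb hint⟩

end Pool.Agent.Results.MP_b0497c_an.GrowthMaximum
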