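import Pool.Agent.W786.Max4

/-!
# No blow-up of the Euler equations if the direction of the vorticity is regular at one maximum

`Directed (u t) x G U` (module `Pool.Agent.W786.Dir2`): on the ball of radius `1 / G` about `x` the
vorticity of `u t` is `|ω| ξ` with a `C¹` field `ξ`, `|ξ| ≤ 1`, whose derivative has norm at most
`G`, and on this ball `u t` differs from its value at `x` by at most `U`.

If for almost every time `t` this holds with `G = G(t)`, `U = U(t)` near ONE point of maximal
vorticity, and `∫ U(t) G(t) dt` is finite, then the solution does not blow up: its vorticity is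
bounded by an explicit double exponential of this integral. There is no condition away from this
ball, none on the other maxima of the vorticity, and none on the growth of the vorticity (the theorem
`TypeIDirection` of the starting files is about vorticities of Type I).
-/

open MeasureTheory Set
open scoped ENNReal Topology

namespace Pool.Agent.Results.MP_b0497c_an.OneMaximumDirection

open Pool.Agent.H708R2.EulerSign Pool.Agent.H708R2.EulerTypeI Pool.Agent.W786.Dir
  Pool.Agent.W786.Max

/-- There is an absolute constant `C > 0` such that for every `C²` periodic solution `(u, p)` of the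
Euler equations on `[0, T)`, all functions `G`, `U` with `U G` integrable on `(0, T)` and every real
`Λ`: if for almost every `t` there is a point `x` of maximal vorticity such that the vorticity at `x`
is at most `Λ`, or near `x` the vorticity is regularly directed at the length scale `1 / G(t)` with
velocity variation `U(t)`, then the Beale-Kato-Majda integral is finite, and for all `K ≥ 1` with
`Λ ≤ K` and `|ω₀| ≤ K` the vorticity satisfies
`|ω(t, x)| ≤ exp ((2 + log K) exp (C ∫₀ᵗ (1 + |U G|)))`. -/
theorem result :
    ∃ C : ℝ, 0 < C ∧ ∀ (T Λ : ℝ) (u : ℝ → V → V) (p : ℝ → V → ℝ) (G U : ℝ → ℝ),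
      IsC2Solution T u p → IntegrableOn (fun t => U t * G t) (Ioo 0 T) →
      (∀ᵐ t, t ∈ Ioo 0 T → 0 < G t ∧ ∃ x, IsMaxPt u t x ∧
        (Λ < nrm (vort (u t) x) → Directed (u t) x (G t) (U t))) →
      BKMFinite T u ∧
      ∀ K : ℝ, 1 ≤ K → Λ ≤ K → (∀ x, nrm (vort (u 0) x) ≤ K) → ∀ t ∈ Ioo 0 T, ∀ x,
        nrm (vort (u t) x) ≤
          Real.exp ((2 + Real.log K) * Real.exp (C * ∫ s in Ioo 0 t, (1 + |U s * G s|))) :=
  ⟨Cst, Cst_pos, fun _ _ _ _ _ _ h hint hdir =>
    ⟨dir_bkm h hint hdir, fun _ h1 hΛ hK => dir_bound h hint hdir h1 hΛ hK⟩⟩

end Pool.Agent.Results.MP_b0497c_an.OneMaximumDirection
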