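import Pool.Agent.TH340.PS.EU

/-!
# The separation of one pair of particles decides on blow-up for the Euler equations

The strain of a velocity field is the rate at which near particles separate or approach each other.
Here the blow-up of a smooth solution of the Euler equations is excluded by an Osgood condition for
the separation of *one pair* of particles at each time, at one scale `r(t)`, or, one-sidedly and
only for the radial part of the velocity, on one ball of this radius:

* the pair `x ± r e`, where the particles near `x` in the direction `e` separate (or approach) at a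
  rate comparable with the maximal strain, satisfies `|e · (u(x + r e) - u(x - r e))| ≤ 2 B(t) φ(r)`;
* or `σ (y - x) · (u(y) - a) ≤ B(t) r φ(r)` for all `y` with `|y - x| ≤ r`, where the strain at `x` is
  comparable with the maximal strain, with one sign `σ` and one velocity `a`, which may both depend
  on time in an arbitrary way.

If `∫ B dt < ∞` and `∫₀ dr / φ(r) = ∞`, the norm of the third derivatives of the velocity stays
bounded; in general, the Osgood integral of the scale `r(t) = (1 + ∑ ∫ |∂³u|²)⁻²` satisfies the
inequality of the theorem. The bounds do not depend on the viscosity `ν ≥ 0`; `ν = 0` is the case of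
the Euler equations.

Proof: (1) the nonlinear term increases `∑ ∫ |∂³u|²` at most at the rate `C sup |S| ∑ ∫ |∂³u|²` with
the strain `S` instead of the whole gradient: all terms are written as integrals of products of
second derivatives of the strain, and interpolated. (2) For a field `v` of divergence zero and the
weight `w(y) = (r² - |y|²)₊³`, the average of the strain with the weight `w` is given by the radial
part of `v` alone, and it has trace zero, so that a one-sided bound suffices. (3) The strain is
Hölder continuous with exponent `1 / 4`. (4) Osgood's lemma.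
-/

set_option autoImplicit false

open MeasureTheory Set

namespace Pool.Agent.Results.MP_b0497c_an.PairSeparation

open H459R3.NS H459R3.EU TH340.PS

/-- There is an absolute constant `C` with the following property. Let `(u, p)` be a smooth
periodic solution of the Euler equations (`ν = 0`) or of the Navier-Stokes equations (`ν > 0`) on
`[0, T)`, let `φ` be continuous on `(0, 1]` with `φ(r) ≥ r`, and let `B ≥ 0` be integrable on
`(T₀, T)`. If at every time `t` of `(T₀, T)` the condition `Slow A (B t) φ (u t)` holds, then the
scale `scl (u t) = (1 + ∑ ∫ |∂³u(t)|²)⁻²` satisfies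
`∫_{scl (u t)}^{scl (u s)} dr / φ(r) ≤ C A ∫_s^t (1 + B)` for `T₀ ≤ s ≤ t < T`; and if
`∫₀¹ dr / φ(r) = ∞`, then `∑ ∫ |∂³u|²` is bounded on `[0, T)`. -/
theorem result : ∃ C : ℝ, 0 < C ∧ ∀ (ν T₀ T A : ℝ) (u : ℝ → V → V) (p : ℝ → V → ℝ) (φ B : ℝ → ℝ),
    0 ≤ ν → 0 ≤ T₀ → T₀ < T → 0 ≤ A → IsSol ν T u p →
    ContinuousOn φ (Ioc 0 1) → (∀ r ∈ Ioc (0 : ℝ) 1, r ≤ φ r) →
    IntegrableOn B (Ioo T₀ T) → (∀ t ∈ Ioo T₀ T, 0 ≤ B t) →
    (∀ t ∈ Ioo T₀ T, Slow A (B t) φ (u t)) →
    (∀ s t, T₀ ≤ s → s ≤ t → t < T →
      ∫ r in (scl (u t))..(scl (u s)), 1 / φ r ≤ C * A * ∫ τ in s..t, (1 + B τ)) ∧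
    (¬ IntegrableOn (fun r => 1 / φ r) (Ioc 0 1) → ∃ M : ℝ, ∀ t ∈ Ico 0 T, dsq (u t) ≤ M) := by
  have hC := Real.sqrt_nonneg C7
  refine ⟨82620 * (12 + 162 * Real.sqrt C7), by positivity,
    fun ν T₀ T A u p φ B hν hT₀ hT hA h hφc hφ hB hB0 hc =>
      ⟨fun s t hs hst ht => osgood hν hT₀ hA h hφc hφ hB hB0 hc hs hst ht,
        fun hni => bounded hν hT₀ hT hA h hφc hφ hB hB0 hc hni⟩⟩

end Pool.Agent.Results.MP_b0497c_an.PairSeparation
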